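import Pool.Agent.MWK.StmtsN

/-!
Squad MWK, row NKA: `x t x ≈ x^2 t x` preserves the words `x^i y^j`.
-/

set_option autoImplicit false

namespace Pool.Agent.MWK.H53

open Pool.Agent.Helper14_MV Pool.Agent.Helper2_MV
open Pool.Agent.MWF (Ap gaml)

theorem pair_append (a b : ℕ) (l m : List ℕ) : List.Sublist [a, b] (l ++ m) ↔
    List.Sublist [a, b] l ∨ List.Sublist [a, b] m ∨ (a ∈ l ∧ b ∈ m) := by
  constructor
  · intro h
    obtain ⟨l₁, l₂, h1, h2, h3⟩ := List.sublist_append_iff.1 h
    rcases l₁ with _ | ⟨x, l₁⟩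
    · right
      left
      rw [h1]
      simpa using h3
    · rcases l₁ with _ | ⟨y, l₁⟩
      · simp only [List.cons_append, List.nil_append, List.cons.injEq] at h1
        right
        right
        refine ⟨?_, ?_⟩
        · rw [h1.1]
          exact List.singleton_sublist.1 h2
        · rw [← h1.2] at h3
          exact List.singleton_sublist.1 h3
      · left
        simp only [List.cons_append, List.cons.injEq] at h1
        have h4 : l₁ = [] := (List.append_eq_nil_iff.1 h1.2.2.symm).1
        rw [h1.1, h1.2.1]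
        rw [h4] at h2
        exact h2
  · rintro (h | h | ⟨h1, h2⟩)
    · exact h.trans (List.sublist_append_left _ _)
    · exact h.trans (List.sublist_append_right _ _)
    · exact (List.singleton_sublist.2 h1).append (List.singleton_sublist.2 h2)

theorem norm_pa (w : List ℕ) (h1 : ∀ c ∈ w, c = 0 ∨ c = 1) (h2 : ¬ List.Sublist [1, 0] w) :
    w = List.replicate (w.count 0) 0 ++ List.replicate (w.count 1) 1 := by
  induction w with
  | nil => simp
  | cons c w ih =>
    have ih' := ih (fun d hd => h1 d (List.mem_cons_of_mem _ hd)) fun h => h2 (h.cons c)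
    rcases h1 c List.mem_cons_self with rfl | rfl
    · rw [List.count_cons_self, List.count_cons_of_ne (by decide), List.replicate_succ,
        List.cons_append, ← ih']
    · have h3 : w.count 0 = 0 := by
        rw [List.count_eq_zero]
        intro h4
        exact h2 ((List.singleton_sublist.2 h4).cons_cons 1)
      rw [List.count_cons_self, List.count_cons_of_ne (by decide), h3]
      rw [h3] at ih'
      rw [List.replicate_succ]
      simp only [List.replicate_zero, List.nil_append] at ih' ⊢
      rw [← ih']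

theorem pa_iff (w : List ℕ) : PA w ↔ (∀ c ∈ w, c = 0 ∨ c = 1) ∧ ¬ List.Sublist [1, 0] w ∧
    2 ≤ w.count 0 ∧ 2 ≤ w.count 1 := by
  constructor
  · rintro ⟨i, j, hi, hj, rfl⟩
    refine ⟨?_, ?_, ?_, ?_⟩
    · intro c hc
      rcases List.mem_append.1 hc with h | h
      · exact Or.inl (List.eq_of_mem_replicate h)
      · exact Or.inr (List.eq_of_mem_replicate h)
    · intro h
      rcases (pair_append 1 0 _ _).1 h with h3 | h3 | ⟨h3, -⟩
      · have h4 := List.eq_of_mem_replicate (h3.subset (List.mem_cons_self))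
        exact absurd h4 (by decide)
      · have h4 := List.eq_of_mem_replicate
          (h3.subset (List.mem_cons_of_mem 1 (List.mem_singleton_self 0)))
        exact absurd h4 (by decide)
      · exact absurd (List.eq_of_mem_replicate h3) (by decide)
    · rw [List.count_append, List.count_replicate_self, List.count_replicate]
      omega
    · rw [List.count_append, List.count_replicate_self, List.count_replicate]
      omega
  · rintro ⟨h1, h2, h3, h4⟩
    exact ⟨_, _, h3, h4, norm_pa w h1 h2⟩

theorem nka : NkaStmt := by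
  refine Pool.Agent.MWF.RR_gaml ?_
  intro f p q
  have e1 : p ++ [0, 1, 0].flatMap f ++ q = p ++ (f 0 ++ (f 1 ++ (f 0 ++ q))) := by
    simp [List.flatMap_cons]
  have e2 : p ++ [0, 0, 1, 0].flatMap f ++ q =
      p ++ (f 0 ++ (f 0 ++ (f 1 ++ (f 0 ++ q)))) := by
    simp [List.flatMap_cons]
  rw [e1, e2, pa_iff, pa_iff]
  have h1 : (∀ c ∈ p ++ (f 0 ++ (f 1 ++ (f 0 ++ q))), c = 0 ∨ c = 1) ↔
      (∀ c ∈ p ++ (f 0 ++ (f 0 ++ (f 1 ++ (f 0 ++ q)))), c = 0 ∨ c = 1) := by
    refine forall_congr' fun c => ?_
    refine imp_congr ?_ Iff.rfl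
    simp only [List.mem_append]
    tauto
  have h2 : List.Sublist [1, 0] (p ++ (f 0 ++ (f 1 ++ (f 0 ++ q)))) ↔
      List.Sublist [1, 0] (p ++ (f 0 ++ (f 0 ++ (f 1 ++ (f 0 ++ q))))) := by
    constructor
    · intro h
      exact h.trans ((List.Sublist.refl p).append (List.sublist_append_right (f 0) _))
    · intro h
      have hX : ∀ c ∈ f 0, c ∈ f 1 ++ (f 0 ++ q) := fun c hc =>
        List.mem_append_right _ (List.mem_append_left _ hc)
      have hR : List.Sublist [1, 0] (f 0 ++ (f 1 ++ (f 0 ++ q))) →
          List.Sublist [1, 0] (p ++ (f 0 ++ (f 1 ++ (f 0 ++ q)))) := fun h =>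
        h.trans (List.sublist_append_right _ _)
      rcases (pair_append 1 0 _ _).1 h with h3 | h3 | ⟨h3, h4⟩
      · exact h3.trans (List.sublist_append_left _ _)
      · rcases (pair_append 1 0 _ _).1 h3 with h5 | h5 | ⟨h5, h6⟩
        · exact hR (h5.trans (List.sublist_append_left _ _))
        · exact hR h5
        · refine hR ((pair_append 1 0 _ _).2 (Or.inr (Or.inr ⟨h5, ?_⟩)))
          rcases List.mem_append.1 h6 with h7 | h7
          · exact hX 0 h7
          · exact h7
      · refine (pair_append 1 0 _ _).2 (Or.inr (Or.inr ⟨h3, ?_⟩))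
        rcases List.mem_append.1 h4 with h7 | h7
        · exact List.mem_append_left _ h7
        · exact h7
  have h3 : ∀ d : ℕ, 2 ≤ (p ++ (f 0 ++ (f 1 ++ (f 0 ++ q)))).count d ↔
      2 ≤ (p ++ (f 0 ++ (f 0 ++ (f 1 ++ (f 0 ++ q))))).count d := by
    intro d
    simp only [List.count_append]
    omega
  rw [h1, h2, h3, h3]

end Pool.Agent.MWK.H53
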